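import Pool.Agent.H28.GR.Defs

/-!
# GR module V3: three coordinates
-/

set_option autoImplicit false

open Finset Pool.Agent.H23.GW Pool.Agent.H23.GC Pool.Agent.H23.GF Pool.Agent.H28.GR

namespace Pool.Agent.H33.GR.V3

/-- `c` lies between `0` and `v` -/
def le1 (c v : ℤ) : Prop := v.natAbs = c.natAbs + (v - c).natAbs

/-- the sign of `a` is `e` -/
def sg (a e : ℤ) : Prop := (e = 1 ∧ 0 < a) ∨ (e = -1 ∧ a < 0)

open Classical in
noncomputable def cI (a e : ℤ) : ℕ := if sg a e then 1 else 0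

open Classical in
noncomputable def sp (y z e e' : ℤ) : ℕ := if sg y e ∧ sg z e' then 1 else 0

lemma cI_one {a e : ℤ} (h : sg a e) : cI a e = 1 := by
  unfold cI
  rw [if_pos h]

lemma sg_one (a : ℤ) : sg a 1 ↔ 0 < a := by
  unfold sg
  constructor
  · rintro (h | h)
    · exact h.2
    · exact absurd h.1 (by norm_num)
  · intro h
    exact Or.inl ⟨rfl, h⟩

lemma sg_neg_one (a : ℤ) : sg a (-1) ↔ a < 0 := by
  unfold sg
  constructor
  · rintro (h | h)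
    · exact absurd h.1 (by norm_num)
    · exact h.2
  · intro h
    exact Or.inr ⟨rfl, h⟩

lemma cI_le (a : ℤ) : cI a 1 + cI a (-1) ≤ 1 := by
  unfold cI
  simp only [sg_one, sg_neg_one]
  split_ifs <;> omega

lemma sp_le (y z : ℤ) : sp y z 1 1 + sp y z 1 (-1) + sp y z (-1) 1 + sp y z (-1) (-1) ≤ 1 := by
  unfold sp
  simp only [sg_one, sg_neg_one]
  split_ifs <;> omega

lemma le1_iff {e : ℤ} (he : e = 1 ∨ e = -1) {k v : ℤ} (hk : 0 < k) :
    le1 (k * e) v ↔ k ≤ e * v := by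
  rcases he with rfl | rfl
  · unfold le1
    rw [mul_one, one_mul]
    omega
  · unfold le1
    constructor
    · intro h
      omega
    · intro h
      omega

lemma le1_one {e : ℤ} (he : e = 1 ∨ e = -1) {v : ℤ} : le1 e v ↔ 1 ≤ e * v := by
  have := le1_iff he (k := 1) (v := v) (by norm_num)
  rwa [one_mul] at this

lemma le1_pos {k v : ℤ} (hk : 0 < k) : le1 k v ↔ k ≤ v := by
  unfold le1
  omega

lemma le1_zero (v : ℤ) : le1 0 v := by
  unfold le1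
  simp

lemma sg_iff {e : ℤ} (he : e = 1 ∨ e = -1) {v : ℤ} : sg v e ↔ 0 < e * v := by
  rcases he with rfl | rfl
  · unfold sg
    omega
  · unfold sg
    omega

lemma abs_eq {e : ℤ} (he : e = 1 ∨ e = -1) {v : ℤ} (h : 0 ≤ e * v) : (v.natAbs : ℤ) = e * v := by
  rcases he with rfl | rfl <;> omega

lemma n1 {s : ℕ} (hs : 5 ≤ s) {e e' : ℤ} (he : e = 1 ∨ e = -1) (he' : e' = 1 ∨ e' = -1) :
    ((s : ℤ) - 1).natAbs + e.natAbs + e'.natAbs = s + 1 := by
  rcases he with rfl | rfl <;> rcases he' with rfl | rfl <;> simp <;> omega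

lemma n2 {s : ℕ} (hs : 5 ≤ s) {e : ℤ} (he : e = 1 ∨ e = -1) :
    ((s : ℤ) - 1).natAbs + (2 * e).natAbs + (0 : ℤ).natAbs = s + 1 := by
  rcases he with rfl | rfl <;> simp <;> omega

lemma n3 {s : ℕ} (hs : 5 ≤ s) {e : ℤ} (he : e = 1 ∨ e = -1) :
    ((s : ℤ) - 1).natAbs + (0 : ℤ).natAbs + (2 * e).natAbs = s + 1 := by
  rcases he with rfl | rfl <;> simp <;> omega

lemma n4 {s : ℕ} (hs : 5 ≤ s) {e : ℤ} (he : e = 1 ∨ e = -1) :
    ((s : ℤ) - 2).natAbs + (3 * e).natAbs + (0 : ℤ).natAbs = s + 1 := by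
  rcases he with rfl | rfl <;> simp <;> omega

lemma n5 {s : ℕ} (hs : 5 ≤ s) {e : ℤ} (he : e = 1 ∨ e = -1) :
    ((s : ℤ) - 2).natAbs + (0 : ℤ).natAbs + (3 * e).natAbs = s + 1 := by
  rcases he with rfl | rfl <;> simp <;> omega

lemma n6 {s : ℕ} (hs : 5 ≤ s) {e e' : ℤ} (he : e = 1 ∨ e = -1) (he' : e' = 1 ∨ e' = -1) :
    ((s : ℤ) - 2).natAbs + e.natAbs + (2 * e').natAbs = s + 1 := by
  rcases he with rfl | rfl <;> rcases he' with rfl | rfl <;> simp <;> omega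

lemma n7 {s : ℕ} (hs : 5 ≤ s) {e e' : ℤ} (he : e = 1 ∨ e = -1) (he' : e' = 1 ∨ e' = -1) :
    ((s : ℤ) - 2).natAbs + (2 * e).natAbs + e'.natAbs = s + 1 := by
  rcases he with rfl | rfl <;> rcases he' with rfl | rfl <;> simp <;> omega

lemma n8 (s : ℕ) : ((s : ℤ) + 1).natAbs + (0 : ℤ).natAbs + (0 : ℤ).natAbs = s + 1 := by
  omega

section

variable {s : ℕ} {L : ℤ → ℤ → ℤ → Prop} {X Y Z : ℤ → ℤ → ℤ → ℤ}

lemma claim (hs : 5 ≤ s) (hn : ∀ x y z, L x y z → x.natAbs + y.natAbs + z.natAbs = 2 * s + 1)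
    (hex : ∀ a b c : ℤ, a.natAbs + b.natAbs + c.natAbs = s + 1 →
      L (X a b c) (Y a b c) (Z a b c) ∧ le1 a (X a b c) ∧ le1 b (Y a b c) ∧ le1 c (Z a b c))
    (huq : ∀ a b c x y z : ℤ, a.natAbs + b.natAbs + c.natAbs = s + 1 → L x y z → le1 a x →
      le1 b y → le1 c z → x = X a b c ∧ y = Y a b c ∧ z = Z a b c)
    {e e' : ℤ} (he : e = 1 ∨ e = -1) (he' : e' = 1 ∨ e' = -1) :
    3 ≤ cI (Z ((s : ℤ) - 1) (2 * e) 0) e' + cI (Y ((s : ℤ) - 1) 0 (2 * e')) e +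
      cI (Z ((s : ℤ) - 2) (3 * e) 0) e' + cI (Y ((s : ℤ) - 2) 0 (3 * e')) e +
      3 * sp (Y ((s : ℤ) + 1) 0 0) (Z ((s : ℤ) + 1) 0 0) e e' := by
  by_cases hsp : sg (Y ((s : ℤ) + 1) 0 0) e ∧ sg (Z ((s : ℤ) + 1) 0 0) e'
  · have : sp (Y ((s : ℤ) + 1) 0 0) (Z ((s : ℤ) + 1) 0 0) e e' = 1 := if_pos hsp
    rw [this]
    exact Nat.le_add_left _ _
  have hs' : (5 : ℤ) ≤ s := by exact_mod_cast hs
  -- data of a vector in the open quadrant
  have hq : ∀ x y z, L x y z → (s : ℤ) - 2 ≤ x → 1 ≤ e * y → 1 ≤ e' * z →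
      x ≤ s ∧ x + e * y + e' * z = 2 * s + 1 ∧
      ((s : ℤ) - 1 ≤ x → 2 ≤ e * y → cI (Z ((s : ℤ) - 1) (2 * e) 0) e' = 1) ∧
      ((s : ℤ) - 1 ≤ x → 2 ≤ e' * z → cI (Y ((s : ℤ) - 1) 0 (2 * e')) e = 1) ∧
      (3 ≤ e * y → cI (Z ((s : ℤ) - 2) (3 * e) 0) e' = 1 ∧ z = Z ((s : ℤ) - 2) (3 * e) 0) ∧
      (3 ≤ e' * z → cI (Y ((s : ℤ) - 2) 0 (3 * e')) e = 1 ∧ y = Y ((s : ℤ) - 2) 0 (3 * e')) := by
    intro x y z hL hx hy hz
    have sy : sg y e := (sg_iff he).2 (by linarith)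
    have sz : sg z e' := (sg_iff he').2 (by linarith)
    refine ⟨?_, ?_, ?_, ?_, ?_, ?_⟩
    · by_contra hcon
      apply hsp
      obtain ⟨-, h2, h3⟩ := huq ((s : ℤ) + 1) 0 0 x y z (n8 s) hL
        ((le1_pos (by linarith)).2 (by omega)) (le1_zero y) (le1_zero z)
      rw [← h2, ← h3]
      exact ⟨sy, sz⟩
    · have h1 := hn x y z hL
      have h2 := abs_eq he (v := y) (by linarith)
      have h3 := abs_eq he' (v := z) (by linarith)
      have h4 : (x.natAbs : ℤ) = x := Int.natAbs_of_nonneg (by linarith)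
      have h5 : (x.natAbs : ℤ) + y.natAbs + z.natAbs = 2 * s + 1 := by exact_mod_cast h1
      rw [h2, h3, h4] at h5
      exact h5
    · intro h1 h2
      obtain ⟨-, -, h3⟩ := huq ((s : ℤ) - 1) (2 * e) 0 x y z (n2 hs he) hL
        ((le1_pos (by linarith)).2 h1) ((le1_iff he (by norm_num)).2 h2) (le1_zero z)
      rw [← h3]
      exact cI_one sz
    · intro h1 h2
      obtain ⟨-, h3, -⟩ := huq ((s : ℤ) - 1) 0 (2 * e') x y z (n3 hs he') hL
        ((le1_pos (by linarith)).2 h1) (le1_zero y) ((le1_iff he' (by norm_num)).2 h2)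
      rw [← h3]
      exact cI_one sy
    · intro h2
      obtain ⟨-, -, h3⟩ := huq ((s : ℤ) - 2) (3 * e) 0 x y z (n4 hs he) hL
        ((le1_pos (by linarith)).2 hx) ((le1_iff he (by norm_num)).2 h2) (le1_zero z)
      refine ⟨?_, h3⟩
      rw [← h3]
      exact cI_one sz
    · intro h2
      obtain ⟨-, h3, -⟩ := huq ((s : ℤ) - 2) 0 (3 * e') x y z (n5 hs he') hL
        ((le1_pos (by linarith)).2 hx) (le1_zero y) ((le1_iff he' (by norm_num)).2 h2)
      refine ⟨?_, h3⟩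
      rw [← h3]
      exact cI_one sy
  obtain ⟨hL, l1, l2, l3⟩ := hex ((s : ℤ) - 1) e e' (n1 hs he he')
  rw [le1_pos (by linarith)] at l1
  rw [le1_one he] at l2
  rw [le1_one he'] at l3
  obtain ⟨x, hx⟩ : ∃ x, x = X ((s : ℤ) - 1) e e' := ⟨_, rfl⟩
  obtain ⟨y, hy⟩ : ∃ y, y = Y ((s : ℤ) - 1) e e' := ⟨_, rfl⟩
  obtain ⟨z, hz⟩ : ∃ z, z = Z ((s : ℤ) - 1) e e' := ⟨_, rfl⟩
  rw [← hx, ← hy, ← hz] at hL
  rw [← hx] at l1
  rw [← hy] at l2
  rw [← hz] at l3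
  obtain ⟨q1, q2, q3, q4, q5, q6⟩ := hq x y z hL (by linarith) l2 l3
  clear hx hy hz
  obtain ⟨A, hA⟩ : ∃ A, A = cI (Z ((s : ℤ) - 1) (2 * e) 0) e' := ⟨_, rfl⟩
  obtain ⟨B, hB⟩ : ∃ B, B = cI (Y ((s : ℤ) - 1) 0 (2 * e')) e := ⟨_, rfl⟩
  obtain ⟨C, hC⟩ : ∃ C, C = cI (Z ((s : ℤ) - 2) (3 * e) 0) e' := ⟨_, rfl⟩
  obtain ⟨E, hE⟩ : ∃ E, E = cI (Y ((s : ℤ) - 2) 0 (3 * e')) e := ⟨_, rfl⟩
  rw [← hA, ← hB, ← hC, ← hE]
  rw [← hA] at q3
  rw [← hB] at q4
  rw [← hC] at q5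
  rw [← hE] at q6
  have goal3 : 3 ≤ A + B + C + E := by
    by_cases hy2 : 2 ≤ e * y
    · have hA1 := q3 l1 hy2
      by_cases hz2 : 2 ≤ e' * z
      · have hB1 := q4 l1 hz2
        by_cases hy3 : 3 ≤ e * y
        · have := (q5 hy3).1
          omega
        · have := (q6 (by omega)).1
          omega
      · have hC1 := q5 (by omega)
        obtain ⟨hL', m1, m2, m3⟩ := hex ((s : ℤ) - 2) e (2 * e') (n6 hs he he')
        rw [le1_pos (by linarith)] at m1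
        rw [le1_one he] at m2
        rw [le1_iff he' (by norm_num)] at m3
        obtain ⟨p1, p2, p3, p4, p5, p6⟩ := hq _ _ _ hL' m1 m2 (by linarith)
        have hE1 : E = 1 := by
          rw [hE]
          refine (p6 ?_).1
          by_contra hcon
          have h1 := (p5 (by omega)).2
          rw [← hC1.2] at h1
          rw [h1] at m3
          omega
        omega
    · have hB1 := q4 l1 (by omega)
      have hE1 := q6 (by omega)
      obtain ⟨hL', m1, m2, m3⟩ := hex ((s : ℤ) - 2) (2 * e) e' (n7 hs he he')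
      rw [le1_pos (by linarith)] at m1
      rw [le1_iff he (by norm_num)] at m2
      rw [le1_one he'] at m3
      obtain ⟨p1, p2, p3, p4, p5, p6⟩ := hq _ _ _ hL' m1 (by linarith) m3
      have hC1 : C = 1 := by
        rw [hC]
        refine (p5 ?_).1
        by_contra hcon
        have h1 := (p6 (by omega)).2
        rw [← hE1.2] at h1
        rw [h1] at m2
        omega
      omega
  exact goal3.trans (Nat.le_add_right _ _)

lemma main (hs : 5 ≤ s) (hn : ∀ x y z, L x y z → x.natAbs + y.natAbs + z.natAbs = 2 * s + 1)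
    (hex : ∀ a b c : ℤ, a.natAbs + b.natAbs + c.natAbs = s + 1 →
      L (X a b c) (Y a b c) (Z a b c) ∧ le1 a (X a b c) ∧ le1 b (Y a b c) ∧ le1 c (Z a b c))
    (huq : ∀ a b c x y z : ℤ, a.natAbs + b.natAbs + c.natAbs = s + 1 → L x y z → le1 a x →
      le1 b y → le1 c z → x = X a b c ∧ y = Y a b c ∧ z = Z a b c) : False := by
  have h1 := claim hs hn hex huq (e := 1) (e' := 1) (Or.inl rfl) (Or.inl rfl)
  have h2 := claim hs hn hex huq (e := 1) (e' := -1) (Or.inl rfl) (Or.inr rfl)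
  have h3 := claim hs hn hex huq (e := -1) (e' := 1) (Or.inr rfl) (Or.inl rfl)
  have h4 := claim hs hn hex huq (e := -1) (e' := -1) (Or.inr rfl) (Or.inr rfl)
  have k0 := sp_le (Y ((s : ℤ) + 1) 0 0) (Z ((s : ℤ) + 1) 0 0)
  have k1 := cI_le (Z ((s : ℤ) - 1) (2 * 1) 0)
  have k2 := cI_le (Z ((s : ℤ) - 1) (2 * -1) 0)
  have k3 := cI_le (Z ((s : ℤ) - 2) (3 * 1) 0)
  have k4 := cI_le (Z ((s : ℤ) - 2) (3 * -1) 0)
  have k5 := cI_le (Y ((s : ℤ) - 1) 0 (2 * 1))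
  have k6 := cI_le (Y ((s : ℤ) - 1) 0 (2 * -1))
  have k7 := cI_le (Y ((s : ℤ) - 2) 0 (3 * 1))
  have k8 := cI_le (Y ((s : ℤ) - 2) 0 (3 * -1))
  omega

end

theorem v3 : T_V3 := by
  intro ι _ G _ s ev hPC hs hcard
  let e : ι ≃ Fin 3 := (Fintype.equivFin ι).trans (finCongr hcard)
  let vec : ℤ → ℤ → ℤ → ι → ℤ := fun x y z i => ![x, y, z] (e i)
  have hnrm : ∀ x y z, nrm (vec x y z) = x.natAbs + y.natAbs + z.natAbs := by
    intro x y z
    unfold nrm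
    rw [← Equiv.sum_comp e.symm]
    simp [vec, Fin.sum_univ_three]
  have hsurj : ∀ v : ι → ℤ, vec (v (e.symm 0)) (v (e.symm 1)) (v (e.symm 2)) = v := by
    intro v
    funext i
    obtain ⟨j, rfl⟩ := e.symm.surjective i
    show ![v (e.symm 0), v (e.symm 1), v (e.symm 2)] (e (e.symm j)) = v (e.symm j)
    rw [Equiv.apply_symm_apply]
    fin_cases j <;> rfl
  have hle : ∀ a b c x y z, Le (vec a b c) (vec x y z) ↔ le1 a x ∧ le1 b y ∧ le1 c z := by
    intro a b c x y z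
    rw [Le_iff]
    constructor
    · intro h
      have h0 := h (e.symm 0)
      have h1 := h (e.symm 1)
      have h2 := h (e.symm 2)
      simp only [vec, Equiv.apply_symm_apply] at h0 h1 h2
      exact ⟨h0, h1, h2⟩
    · rintro ⟨h0, h1, h2⟩ i
      obtain ⟨j, rfl⟩ := e.symm.surjective i
      simp only [vec, Equiv.apply_symm_apply]
      fin_cases j
      · exact h0
      · exact h1
      · exact h2
  let L : ℤ → ℤ → ℤ → Prop := fun x y z => vec x y z ∈ Lv ev (2 * s + 1)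
  have hR : ∀ a b c : ℤ, ∃ x y z : ℤ, a.natAbs + b.natAbs + c.natAbs = s + 1 →
      (L x y z ∧ le1 a x ∧ le1 b y ∧ le1 c z) ∧
      ∀ x' y' z' : ℤ, L x' y' z' → le1 a x' → le1 b y' → le1 c z' → x' = x ∧ y' = y ∧ z' = z := by
    intro a b c
    by_cases h : a.natAbs + b.natAbs + c.natAbs = s + 1
    · obtain ⟨v, ⟨hv1, hv2⟩, hv3⟩ := R1 hPC (c := vec a b c) (mem_Vn.2 (by rw [hnrm]; exact h))
      refine ⟨v (e.symm 0), v (e.symm 1), v (e.symm 2), fun _ => ⟨⟨?_, ?_⟩, ?_⟩⟩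
      · show vec _ _ _ ∈ _
        rw [hsurj]
        exact hv1
      · rw [← hle, hsurj]
        exact hv2
      · intro x' y' z' hL' h1 h2 h3
        have h4 := hv3 (vec x' y' z') ⟨hL', (hle a b c x' y' z').2 ⟨h1, h2, h3⟩⟩
        rw [← h4]
        refine ⟨?_, ?_, ?_⟩
        · show x' = ![x', y', z'] (e (e.symm 0))
          rw [Equiv.apply_symm_apply]
          rfl
        · show y' = ![x', y', z'] (e (e.symm 1))
          rw [Equiv.apply_symm_apply]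
          rfl
        · show z' = ![x', y', z'] (e (e.symm 2))
          rw [Equiv.apply_symm_apply]
          rfl
    · exact ⟨0, 0, 0, fun h' => absurd h' h⟩
  choose X Y Z hXYZ using hR
  refine main (s := s) (L := L) (X := X) (Y := Y) (Z := Z) hs ?_ ?_ ?_
  · intro x y z h
    have := (mem_Lv.1 h).1
    rwa [hnrm] at this
  · intro a b c h
    exact (hXYZ a b c h).1
  · intro a b c x y z h h1 h2 h3 h4
    exact (hXYZ a b c h).2 x y z h1 h2 h3 h4

end Pool.Agent.H33.GR.V3
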