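import Pool.Agent.H28.GR.Defs

/-!
# GR module VL: log-concavity of the numbers of vectors
-/

set_option autoImplicit false

namespace Pool.Agent.H33.GR.VL

open Pool.Agent.H28.GR

lemma V_zero (m : ℕ) : V m 0 = 1 := by unfold V; rfl

lemma V_succ (m n : ℕ) : V (m + 1) (n + 1) = V m (n + 1) + V m n + V (m + 1) n := by
  rw [V]

lemma V_mono {m : ℕ} (hm : 1 ≤ m) (n : ℕ) : V m n ≤ V m (n + 1) := by
  obtain ⟨m, rfl⟩ : ∃ m', m = m' + 1 := ⟨m - 1, by omega⟩
  rw [V_succ]
  omega

lemma V_convex {m : ℕ} (hm : 2 ≤ m) (n : ℕ) : 2 * V m (n + 1) ≤ V m (n + 2) + V m n := by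
  obtain ⟨m, rfl⟩ : ∃ m', m = m' + 1 := ⟨m - 1, by omega⟩
  have h1 := V_mono (show 1 ≤ m by omega) n
  have h2 := V_mono (show 1 ≤ m by omega) (n + 1)
  rw [V_succ m (n + 1), V_succ m n]
  have h3 : n + 1 + 1 = n + 2 := rfl
  rw [h3] at h2 ⊢
  omega

theorem vl (hR : T_VR) : T_VL := by
  intro m n hm
  obtain ⟨v, hv⟩ : ∃ v : ℕ → ℤ, v = fun k => (V m k : ℤ) := ⟨_, rfl⟩
  have hv0 : ∀ k, 0 ≤ v k := fun k => by rw [hv]; exact Int.natCast_nonneg _
  have hrec : ∀ k : ℕ, ((k : ℤ) + 2) * v (k + 2) = 2 * m * v (k + 1) + k * v k := by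
    intro k
    have := hR m k
    rw [hv]
    simp only
    exact_mod_cast this
  have hmono : ∀ k, v k ≤ v (k + 1) := fun k => by
    rw [hv]
    simp only
    exact_mod_cast V_mono (show 1 ≤ m by omega) k
  have hconv : ∀ k, 2 * v (k + 1) ≤ v (k + 2) + v k := fun k => by
    rw [hv]
    simp only
    exact_mod_cast V_convex hm k
  obtain ⟨E, hE⟩ : ∃ E : ℕ → ℤ, E = fun k => v (k + 1) ^ 2 - v k * v (k + 2) := ⟨_, rfl⟩
  obtain ⟨Q, hQ⟩ : ∃ Q : ℕ → ℤ, Q = fun k => v (k + 2) ^ 2 - v (k + 1) ^ 2 := ⟨_, rfl⟩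
  have hid : ∀ j : ℕ, ((j : ℤ) + 3) * E (j + 1) + j * E j = Q j := by
    intro j
    have h1 := hrec (j + 1)
    have h2 := hrec j
    push_cast at h1
    have e1 : j + 1 + 1 = j + 2 := rfl
    have e2 : j + 1 + 2 = j + 3 := rfl
    rw [hE, hQ]
    simp only [e1, e2] at h1 ⊢
    linear_combination (-(v (j + 1))) * h1 + (v (j + 2)) * h2
  have hQmono : ∀ j : ℕ, Q j ≤ Q (j + 1) := by
    intro j
    rw [hQ]
    have h1 := hmono (j + 1)
    have h2 := hconv (j + 1)
    have h3 := hmono (j + 2)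
    have h4 := hv0 (j + 1)
    have e1 : j + 1 + 1 = j + 2 := rfl
    have e2 : j + 1 + 2 = j + 3 := rfl
    simp only [e1, e2] at h1 h2 h3 ⊢
    have e3 : j + 2 + 1 = j + 3 := rfl
    rw [e3] at h3
    nlinarith
  have hmain : ∀ k : ℕ, 0 ≤ E k ∧ 0 ≤ E (k + 1) := by
    intro k
    induction k with
    | zero =>
      have h1 : E 0 = v 1 ^ 2 - v 0 * v 2 := by rw [hE]
      have h2 := hid 0
      have h3 : Q 0 = v 2 ^ 2 - v 1 ^ 2 := by rw [hQ]
      have h4 := hrec 0
      have h5 : v 0 = 1 := by rw [hv]; simp [V_zero]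
      have h6 := hmono 0
      have h7 := hmono 1
      have h8 := hv0 1
      have h9 := hconv 0
      simp only [Nat.cast_zero, zero_add, zero_mul, add_zero] at h2 h4 h6 h9
      have h11 : v 1 = 2 * m := by
        have h12 : V m 1 = 2 * m := by
          clear hR hv hv0 hrec hmono hconv hid hQmono h1 h2 h3 h4 h5 h6 h7 h8 h9 hm
          induction m with
          | zero => simp [V]
          | succ m ih =>
            have := V_succ m 0
            rw [zero_add] at this
            rw [this, V_zero, V_zero, ih]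
            ring
        rw [hv]
        simp only
        rw [h12]
        push_cast
        ring
      constructor
      · rw [h1, h5]
        have hm' : (2 : ℤ) ≤ m := by exact_mod_cast hm
        nlinarith
      · have h10 : 0 ≤ Q 0 := by
          rw [h3]
          have e1 : (1 + 1 : ℕ) = 2 := rfl
          rw [e1] at h7
          nlinarith
        have e1 : (0 + 1 : ℕ) = 1 := rfl
        rw [e1]
        nlinarith
    | succ k ih =>
      refine ⟨ih.2, ?_⟩
      have h1 := hid (k + 1)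
      have h2 := hid k
      have h3 := hQmono k
      push_cast at h1
      have hk : (0 : ℤ) ≤ k := Int.natCast_nonneg k
      obtain ⟨h4, h5⟩ := ih
      have h6 : ((k : ℤ) + 1) * E (k + 1) ≤ Q (k + 1) := by nlinarith
      have h7 : 0 ≤ ((k : ℤ) + 1 + 3) * E (k + 1 + 1) := by linarith
      exact nonneg_of_mul_nonneg_right h7 (by linarith)
  have h := (hmain n).1
  rw [hE, hv] at h
  simp only at h
  have h2 : (V m n : ℤ) * V m (n + 2) ≤ (V m (n + 1) : ℤ) ^ 2 := by linarith
  exact_mod_cast h2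

end Pool.Agent.H33.GR.VL
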