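import Pool.Agent.H28.GR.Defs

/-!
# GR module PA: the numerical part of the first region
-/

set_option autoImplicit false

namespace Pool.Agent.H33.GR.PA

open Pool.Agent.H28.GR

lemma V_zero (m : ℕ) : V m 0 = 1 := by unfold V; rfl

lemma V_succ (m n : ℕ) : V (m + 1) (n + 1) = V m (n + 1) + V m n + V (m + 1) n := by
  rw [V]

lemma V_pos {m : ℕ} (hm : 1 ≤ m) (n : ℕ) : 1 ≤ V m n := by
  obtain ⟨m, rfl⟩ : ∃ m', m = m' + 1 := ⟨m - 1, by omega⟩
  induction n with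
  | zero => rw [V_zero]
  | succ n ih =>
    rw [V_succ]
    omega

/-- the polynomial of the numerical inequality -/
def NN (s m : ℝ) : ℝ := 4 * m ^ 2 + 4 * s + 2 - m * (s + 2) * (s + 3) + (s + 1) * (s + 2) * (s + 3)

def DD (s m : ℝ) : ℝ := s * ((s + 2) * (s + 3) - 2 * m)

def EE (s m : ℝ) : ℝ := (s + 1) * DD s m ^ 2 - 2 * m * NN s m * DD s m - (s - 1) * NN s m ^ 2

lemma EE_pos1 (b c : ℕ) : 0 < EE (10 + b + c) (12 + b) := by
  unfold EE DD NN
  ring_nf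
  positivity

lemma EE_pos8 (c : ℕ) : 0 < EE (13 + c) 8 := by
  unfold EE DD NN
  ring_nf
  positivity

lemma EE_pos9 (c : ℕ) : 0 < EE (13 + c) 9 := by
  unfold EE DD NN
  ring_nf
  positivity

lemma EE_pos10 (c : ℕ) : 0 < EE (13 + c) 10 := by
  unfold EE DD NN
  ring_nf
  positivity

lemma EE_pos11 (c : ℕ) : 0 < EE (13 + c) 11 := by
  unfold EE DD NN
  ring_nf
  positivity

lemma EE_pos {s m : ℕ} (hs : 13 ≤ s) (hm : 8 ≤ m) (hms : m ≤ s + 2) : 0 < EE s m := by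
  rcases le_or_gt 12 m with h | h
  · obtain ⟨b, rfl⟩ : ∃ b, m = 12 + b := ⟨m - 12, by omega⟩
    obtain ⟨c, rfl⟩ : ∃ c, s = 10 + b + c := ⟨s - 10 - b, by omega⟩
    have := EE_pos1 b c
    push_cast
    exact this
  · obtain ⟨c, rfl⟩ : ∃ c, s = 13 + c := ⟨s - 13, by omega⟩
    have h2 : m = 8 ∨ m = 9 ∨ m = 10 ∨ m = 11 := by omega
    rcases h2 with rfl | rfl | rfl | rfl
    · have := EE_pos8 c
      push_cast
      exact this
    · have := EE_pos9 c
      push_cast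
      exact this
    · have := EE_pos10 c
      push_cast
      exact this
    · have := EE_pos11 c
      push_cast
      exact this

theorem pa (hR : T_VR) (hL : T_VL) : T_PA := by
  intro s m hs hm hms
  obtain ⟨r, rfl⟩ : ∃ r, s = r + 1 := ⟨s - 1, by omega⟩
  have hE := EE_pos hs hm hms
  obtain ⟨x, hx⟩ : ∃ x : ℝ, x = V m (r + 2) := ⟨_, rfl⟩
  obtain ⟨y, hy⟩ : ∃ y : ℝ, y = V m (r + 1) := ⟨_, rfl⟩
  obtain ⟨z, hz⟩ : ∃ z : ℝ, z = V m r := ⟨_, rfl⟩
  obtain ⟨x2, hx2⟩ : ∃ x2 : ℝ, x2 = V m (r + 3) := ⟨_, rfl⟩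
  obtain ⟨x3, hx3⟩ : ∃ x3 : ℝ, x3 = V m (r + 4) := ⟨_, rfl⟩
  obtain ⟨σ, hσ⟩ : ∃ σ : ℝ, σ = r + 1 := ⟨_, rfl⟩
  obtain ⟨μ, hμ⟩ : ∃ μ : ℝ, μ = m := ⟨_, rfl⟩
  have hx0 : 0 < x := by
    rw [hx]
    exact_mod_cast V_pos (show 1 ≤ m by omega) (r + 2)
  have hy0 : 0 < y := by
    rw [hy]
    exact_mod_cast V_pos (show 1 ≤ m by omega) (r + 1)
  have r1 : (σ + 1) * x = 2 * μ * y + (σ - 1) * z := by
    have h := hR m r
    have h' : ((r : ℝ) + 2) * V m (r + 2) = 2 * m * V m (r + 1) + r * V m r := by exact_mod_cast h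
    rw [hx, hy, hz, hσ, hμ]
    linear_combination h'
  have r2 : (σ + 2) * x2 = 2 * μ * x + σ * y := by
    have h := hR m (r + 1)
    have h' : ((r : ℝ) + 1 + 2) * V m (r + 3) = 2 * m * V m (r + 2) + (r + 1) * V m (r + 1) := by
      exact_mod_cast h
    rw [hx, hy, hx2, hσ, hμ]
    linear_combination h'
  have r3 : (σ + 3) * x3 = 2 * μ * x2 + (σ + 1) * x := by
    have h := hR m (r + 2)
    have h' : ((r : ℝ) + 2 + 2) * V m (r + 4) = 2 * m * V m (r + 3) + (r + 2) * V m (r + 2) := by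
      exact_mod_cast h
    rw [hx, hx3, hx2, hσ, hμ]
    linear_combination h'
  have hlc : z * x ≤ y ^ 2 := by
    have h := hL m r (by omega)
    rw [hx, hy, hz]
    exact_mod_cast h
  have hE' : 0 < EE σ μ := by
    rw [hσ, hμ]
    have : ((r + 1 : ℕ) : ℝ) = (r : ℝ) + 1 := by push_cast; ring
    rw [this] at hE
    exact hE
  have hσ13 : 13 ≤ σ := by
    rw [hσ]
    exact_mod_cast hs
  have hμ8 : 8 ≤ μ := by rw [hμ]; exact_mod_cast hm
  have hμσ : μ ≤ σ + 2 := by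
    rw [hμ, hσ]
    exact_mod_cast hms
  have hD : 0 < DD σ μ := by
    unfold DD
    refine mul_pos (by linarith) ?_
    nlinarith
  have hkey : NN σ μ * x < DD σ μ * y := by
    by_contra hcon
    push Not at hcon
    have h1 : (σ + 1) * x ^ 2 ≤ 2 * μ * x * y + (σ - 1) * y ^ 2 := by
      have e1 : (σ + 1) * x ^ 2 = 2 * μ * x * y + (σ - 1) * (z * x) := by
        linear_combination x * r1
      rw [e1]
      have := mul_le_mul_of_nonneg_left hlc (show 0 ≤ σ - 1 by linarith)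
      linarith
    have hDy : 0 < DD σ μ * y := mul_pos hD hy0
    have h2 : (DD σ μ * y) * (DD σ μ * y) ≤ (NN σ μ * x) * (NN σ μ * x) :=
      mul_self_le_mul_self hDy.le hcon
    have h3 : (σ + 1) * DD σ μ ^ 2 * x ^ 2 ≤ 2 * μ * DD σ μ * x * (DD σ μ * y) +
        (σ - 1) * ((DD σ μ * y) * (DD σ μ * y)) := by
      have := mul_le_mul_of_nonneg_left h1 (sq_nonneg (DD σ μ))
      nlinarith
    have h4 : 2 * μ * DD σ μ * x * (DD σ μ * y) ≤ 2 * μ * DD σ μ * x * (NN σ μ * x) := by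
      refine mul_le_mul_of_nonneg_left hcon ?_
      have : 0 ≤ μ := by linarith
      positivity
    have h5 : (σ - 1) * ((DD σ μ * y) * (DD σ μ * y)) ≤ (σ - 1) * ((NN σ μ * x) * (NN σ μ * x)) :=
      mul_le_mul_of_nonneg_left h2 (by linarith)
    have h6 : EE σ μ * x ^ 2 ≤ 0 := by
      unfold EE
      nlinarith
    have h7 : 0 < EE σ μ * x ^ 2 := by positivity
    linarith
  have hpos : 0 < (σ + 2) * (σ + 3) := by nlinarith
  have hfin : x3 < (σ * (σ - 1) / ((σ + 2) * (σ + 3)) + μ - σ - 1) * x + σ * y := by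
    have e1 : (σ + 2) * (σ + 3) * x3 = (4 * μ ^ 2 + (σ + 1) * (σ + 2)) * x + 2 * μ * σ * y := by
      linear_combination (σ + 2) * r3 + 2 * μ * r2
    have e2 : (σ + 2) * (σ + 3) * ((σ * (σ - 1) / ((σ + 2) * (σ + 3)) + μ - σ - 1) * x + σ * y) =
        (σ * (σ - 1) + (μ - σ - 1) * ((σ + 2) * (σ + 3))) * x + σ * ((σ + 2) * (σ + 3)) * y := by
      have : (σ + 2) * (σ + 3) * (σ * (σ - 1) / ((σ + 2) * (σ + 3))) = σ * (σ - 1) :=
        mul_div_cancel₀ _ hpos.ne'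
      linear_combination x * this
    refine lt_of_mul_lt_mul_left ?_ hpos.le
    rw [e1, e2]
    unfold NN DD at hkey
    nlinarith
  have g1 : ((r + 1 : ℕ) : ℝ) = σ := by rw [hσ]; push_cast; ring
  have g2 : (V m (r + 1 + 3) : ℝ) = x3 := hx3.symm
  have g3 : (V m (r + 1 + 1) : ℝ) = x := hx.symm
  rw [g1, g2, g3, ← hy, ← hμ]
  exact hfin

end Pool.Agent.H33.GR.PA
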